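import Pool.Agent.Helper6.MONO.Stmts2

set_option autoImplicit false

/-!
Chaining of intervals with exponential gain (module MBC2)
-/

namespace Pool.Agent.Helper6.MONO.S

theorem mbc2_exp {a b t : ℝ} (n : ℕ) (hab : a ≤ b) (ht : 0 ≤ t) :
    Real.exp (-(b * t * n)) ≤ Real.exp (-(a * t * n)) := by
  refine Real.exp_le_exp.2 (neg_le_neg ?_)
  exact mul_le_mul_of_nonneg_right (mul_le_mul_of_nonneg_right hab ht) (Nat.cast_nonneg n)

theorem mbc2_up {C D e e' f x : ℝ} (hx : x ≤ C * e * f) (hCD : C ≤ D) (hD : 0 ≤ D) (he : e ≤ e')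
    (he0 : 0 ≤ e) (hf : 0 ≤ f) : x ≤ D * e' * f := by
  refine le_trans hx (mul_le_mul_of_nonneg_right ?_ hf)
  exact mul_le_mul hCD he he0 hD

theorem st_MBC : ST_MBC := by
  intro p q r s0 s1 s1' s2 h01 h11 h12 ⟨C1, dl1, hC1, hd1, H1⟩ ⟨C2, dl2, hC2, hd2, H2⟩
  have hp : 0 < C1 * C2 := mul_pos hC1 hC2
  obtain ⟨dl, hdl⟩ : ∃ dl, dl = min dl1 dl2 := ⟨_, rfl⟩
  have hl1 : dl ≤ dl1 := by rw [hdl]; exact min_le_left _ _
  have hl2 : dl ≤ dl2 := by rw [hdl]; exact min_le_right _ _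
  have hD : 0 ≤ C1 * C2 + C1 + C2 := by linarith
  refine ⟨C1 * C2 + C1 + C2, dl, by linarith, by rw [hdl]; exact lt_min hd1 hd2, ?_⟩
  intro c d e hd a0 ha0 bs hbs s hs0 hs2
  have G1 := H1 c d e hd a0 ha0 bs hbs
  have G2 := H2 c d e hd a0 ha0 bs hbs
  have up1 : ∀ x : ℝ, x ≤ C1 → x ≤ C1 * C2 + C1 + C2 := fun x hx => by linarith
  have up2 : ∀ x : ℝ, x ≤ C2 → x ≤ C1 * C2 + C1 + C2 := fun x hx => by linarith
  rcases le_or_gt s s1 with hs | hs
  · obtain ⟨a1, a2, a3, a4, a5, a6, a7, a8, a9⟩ := G1 s hs0 hs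
    refine ⟨a1, a2, a3, up1 _ a4, up1 _ a5, up1 _ a6, up1 _ a7, up1 _ a8, ?_⟩
    intro s' hss' hs'2
    rcases le_or_gt s' s1 with hs' | hs'
    · exact mbc2_up (a9 s' hss' hs') (by linarith) hD (mbc2_exp _ hl1 (by linarith))
        (Real.exp_pos _).le a3
    · rcases le_or_gt s s1' with hs3 | hs3
      · obtain ⟨_, _, _, _, _, _, _, _, b9⟩ := G2 s1' le_rfl (by linarith)
        have e1 := b9 s' (by linarith) hs'2
        have e2 := a9 s1' hs3 h11
        have e3 := mul_le_mul_of_nonneg_left e2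
          (mul_nonneg hC2.le (Real.exp_pos (-(dl2 * (s' - s1') * bs.length))).le)
        have e4 := le_trans e1 e3
        have e5 : C2 * Real.exp (-(dl2 * (s' - s1') * bs.length)) *
            (C1 * Real.exp (-(dl1 * (s1' - s) * bs.length)) *
              fP p q r s (c, d, e) (zst p q r s (c, d, e) a0) bs) =
            (C1 * C2) * (Real.exp (-(dl2 * (s' - s1') * bs.length)) *
              Real.exp (-(dl1 * (s1' - s) * bs.length))) *
              fP p q r s (c, d, e) (zst p q r s (c, d, e) a0) bs := by ring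
        rw [e5] at e4
        refine mbc2_up e4 (by linarith) hD ?_
          (mul_nonneg (Real.exp_pos _).le (Real.exp_pos _).le) a3
        have e6 : Real.exp (-(dl * (s' - s) * bs.length)) =
            Real.exp (-(dl * (s' - s1') * bs.length)) *
              Real.exp (-(dl * (s1' - s) * bs.length)) := by
          rw [← Real.exp_add]
          congr 1
          ring
        rw [e6]
        exact mul_le_mul (mbc2_exp _ hl2 (by linarith)) (mbc2_exp _ hl1 (by linarith))
          (Real.exp_pos _).le (Real.exp_pos _).le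
      · obtain ⟨_, _, _, _, _, _, _, _, b9⟩ := G2 s hs3.le hs2
        exact mbc2_up (b9 s' hss' hs'2) (by linarith) hD (mbc2_exp _ hl2 (by linarith))
          (Real.exp_pos _).le a3
  · obtain ⟨a1, a2, a3, a4, a5, a6, a7, a8, a9⟩ := G2 s (by linarith) hs2
    refine ⟨a1, a2, a3, up2 _ a4, up2 _ a5, up2 _ a6, up2 _ a7, up2 _ a8, ?_⟩
    intro s' hss' hs'2
    exact mbc2_up (a9 s' hss' hs'2) (by linarith) hD (mbc2_exp _ hl2 (by linarith))
      (Real.exp_pos _).le a3

end Pool.Agent.Helper6.MONO.S
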